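import Pool.Agent.H688R3.TuranGenBase

/-!
A recursive inequality for the covering densities: the points are split into `M + 1` equal classes.
-/

set_option autoImplicit false

open Finset Filter Topology

namespace Pool.Agent.TH487.Unif

section

variable {M : ℕ} {β : Type*} [Fintype β] [DecidableEq β]

/-- the embedding of a class -/
def inC (c : Fin (M + 1)) : β ↪ Fin (M + 1) × β := ⟨fun y => (c, y), fun a b h => by
  simpa using h⟩

/-- the embedding of the other classes -/
def outC (c : Fin (M + 1)) : Fin M × β ↪ Fin (M + 1) × β := ⟨fun x => (c.succAbove x.1, x.2),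
  fun a b h => by
    simp only [Prod.mk.injEq] at h
    exact Prod.ext (Fin.succAbove_right_injective h.1) h.2⟩

lemma card_split (S : Finset (Fin (M + 1) × β)) (c : Fin (M + 1)) :
    (univ.filter (fun y : β => (c, y) ∈ S)).card +
      (univ.filter (fun x : Fin M × β => outC c x ∈ S)).card = S.card := by
  have h1 : S.card = ∑ x : Fin (M + 1) × β, if x ∈ S then 1 else 0 := by simp
  rw [h1, Fintype.sum_prod_type, Fin.sum_univ_succAbove _ c, card_filter, card_filter,
    Fintype.sum_prod_type]
  rfl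

omit [Fintype β] [DecidableEq β] in
lemma disj (c : Fin (M + 1)) (P : Finset β) (E : Finset (Fin M × β)) :
    Disjoint (P.map (inC c)) (E.map (outC c)) := by
  rw [Finset.disjoint_left]
  intro x hx hx'
  rw [Finset.mem_map] at hx hx'
  obtain ⟨y, -, rfl⟩ := hx
  obtain ⟨z, -, hz⟩ := hx'
  have : c.succAbove z.1 = c := congrArg Prod.fst hz
  exact Fin.succAbove_ne c z.1 this

theorem blow {r m : ℕ}
    (H : Finset (Finset (Fin (M + 1)))) (hH : ∀ R ∈ H, R.card = r)
    (hcov : ∀ S : Finset (Fin (M + 1)), S.card = m → ∃ R ∈ H, R ⊆ S)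
    (F : ℕ → Finset (Finset (Fin M × β))) (hF : ∀ j, 2 ≤ j → j < r → ∀ E ∈ F j, E.card = r - j)
    (hFcov : ∀ j, 2 ≤ j → j < r → ∀ S : Finset (Fin M × β), S.card = m - j → ∃ E ∈ F j, E ⊆ S) :
    ∃ T : Finset (Finset (Fin (M + 1) × β)), (∀ e ∈ T, e.card = r) ∧
      (∀ A : Finset (Fin (M + 1) × β), A.card = m → ∃ e ∈ T, e ⊆ A) ∧
      T.card ≤ H.card * (Fintype.card β) ^ r +
        (M + 1) * ∑ j ∈ Ico 2 r, (Fintype.card β).choose j * (F j).card +
        (M + 1) * (Fintype.card β).choose r := by
  classical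
  set T0 : Finset (Finset (Fin (M + 1) × β)) := H.biUnion (fun R =>
    (R.pi (fun _ => (univ : Finset β))).image
      (fun φ => R.attach.image (fun c => ((c.1, φ c.1 c.2) : Fin (M + 1) × β)))) with hT0
  set T1 : Finset (Finset (Fin (M + 1) × β)) := (univ : Finset (Fin (M + 1))).biUnion (fun c =>
    (Ico 2 r).biUnion (fun j =>
      (powersetCard j (univ : Finset β) ×ˢ F j).image
        (fun x => x.1.map (inC c) ∪ x.2.map (outC c)))) with hT1
  set T2 : Finset (Finset (Fin (M + 1) × β)) := (univ : Finset (Fin (M + 1))).biUnion (fun c =>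
      (powersetCard r (univ : Finset β)).image (fun P => P.map (inC c))) with hT2
  refine ⟨T0 ∪ T1 ∪ T2, ?_, ?_, ?_⟩
  · intro e he
    rw [mem_union, mem_union] at he
    rcases he with (he | he) | he
    · rw [hT0, mem_biUnion] at he
      obtain ⟨R, hR, he⟩ := he
      rw [mem_image] at he
      obtain ⟨φ, -, rfl⟩ := he
      rw [card_image_of_injective, card_attach]
      · exact hH R hR
      · intro x y hxy
        simp only [Prod.mk.injEq] at hxy
        exact Subtype.ext hxy.1
    · rw [hT1, mem_biUnion] at he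
      obtain ⟨c, -, he⟩ := he
      rw [mem_biUnion] at he
      obtain ⟨j, hj, he⟩ := he
      rw [mem_Ico] at hj
      rw [mem_image] at he
      obtain ⟨x, hx, rfl⟩ := he
      rw [mem_product, mem_powersetCard] at hx
      rw [card_union_of_disjoint (disj c _ _), card_map, card_map, hx.1.2,
        hF j hj.1 hj.2 _ hx.2]
      omega
    · rw [hT2, mem_biUnion] at he
      obtain ⟨c, -, he⟩ := he
      rw [mem_image] at he
      obtain ⟨P, hP, rfl⟩ := he
      rw [card_map]
      exact (mem_powersetCard.1 hP).2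
  · intro A hA
    by_cases hinj : ∀ c : Fin (M + 1), (univ.filter (fun y : β => (c, y) ∈ A)).card ≤ 1
    · -- all classes different
      have hinj' : Set.InjOn (Prod.fst : Fin (M + 1) × β → Fin (M + 1)) (A : Set _) := by
        intro x hx y hy hxy
        have h1 := hinj x.1
        rw [card_le_one] at h1
        have h2 := h1 x.2 (by
          rw [mem_filter]; exact ⟨mem_univ _, hx⟩) y.2 (by
          rw [mem_filter]; refine ⟨mem_univ _, ?_⟩
          rw [hxy]; exact hy)
        exact Prod.ext hxy h2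
      have hBc : (A.image Prod.fst).card = m := by
        rw [card_image_of_injOn hinj', hA]
      obtain ⟨R, hR, hRS⟩ := hcov _ hBc
      have hRB : ∀ c ∈ R, ∃ y : β, (c, y) ∈ A := by
        intro c hc
        have := hRS hc
        rw [mem_image] at this
        obtain ⟨x, hx, hxc⟩ := this
        exact ⟨x.2, by rw [← hxc]; exact hx⟩
      choose φ hφ using hRB
      refine ⟨R.attach.image (fun c => ((c.1, φ c.1 c.2) : Fin (M + 1) × β)), ?_, ?_⟩
      · rw [mem_union, mem_union]
        left; left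
        rw [hT0, mem_biUnion]
        refine ⟨R, hR, ?_⟩
        rw [mem_image]
        exact ⟨φ, by simp, rfl⟩
      · intro x hx
        rw [mem_image] at hx
        obtain ⟨c, -, rfl⟩ := hx
        exact hφ c.1 c.2
    · push Not at hinj
      obtain ⟨c, hc⟩ := hinj
      set P : Finset β := univ.filter (fun y : β => (c, y) ∈ A) with hP
      have hPA : P.map (inC c) ⊆ A := by
        intro x hx
        rw [Finset.mem_map] at hx
        obtain ⟨y, hy, rfl⟩ := hx
        exact (mem_filter.1 hy).2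
      have hsplit := card_split A c
      rw [← hP, hA] at hsplit
      rcases Nat.lt_or_ge P.card r with hlt | hge
      · obtain ⟨E, hE, hEs⟩ := hFcov P.card (by omega) hlt
          (univ.filter (fun x : Fin M × β => outC c x ∈ A)) (by omega)
        refine ⟨P.map (inC c) ∪ E.map (outC c), ?_, ?_⟩
        · rw [mem_union, mem_union]
          left; right
          rw [hT1, mem_biUnion]
          refine ⟨c, mem_univ _, ?_⟩
          rw [mem_biUnion]
          refine ⟨P.card, mem_Ico.2 ⟨by omega, hlt⟩, ?_⟩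
          rw [mem_image]
          exact ⟨(P, E), mem_product.2 ⟨mem_powersetCard.2 ⟨subset_univ _, rfl⟩, hE⟩, rfl⟩
        · refine union_subset hPA ?_
          intro x hx
          rw [Finset.mem_map] at hx
          obtain ⟨y, hy, rfl⟩ := hx
          exact (mem_filter.1 (hEs hy)).2
      · obtain ⟨P', hP', hPc⟩ := exists_subset_card_eq hge
        refine ⟨P'.map (inC c), ?_, (map_subset_map.2 hP').trans hPA⟩
        rw [mem_union]
        right
        rw [hT2, mem_biUnion]
        refine ⟨c, mem_univ _, ?_⟩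
        rw [mem_image]
        exact ⟨P', mem_powersetCard.2 ⟨subset_univ _, hPc⟩, rfl⟩
  · refine (card_union_le _ _).trans (Nat.add_le_add ((card_union_le _ _).trans
      (Nat.add_le_add ?_ ?_)) ?_)
    · rw [hT0]
      refine card_biUnion_le.trans ?_
      calc ∑ R ∈ H, ((R.pi (fun _ => (univ : Finset β))).image
            (fun φ => R.attach.image (fun c => ((c.1, φ c.1 c.2) : Fin (M + 1) × β)))).card
          ≤ ∑ _R ∈ H, (Fintype.card β) ^ r := by
            apply sum_le_sum
            intro R hR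
            refine card_image_le.trans ?_
            rw [card_pi, prod_const, hH R hR, card_univ]
        _ = H.card * (Fintype.card β) ^ r := by rw [sum_const, smul_eq_mul]
    · rw [hT1]
      refine card_biUnion_le.trans ?_
      calc ∑ c : Fin (M + 1), ((Ico 2 r).biUnion (fun j =>
              (powersetCard j (univ : Finset β) ×ˢ F j).image
                (fun x => x.1.map (inC c) ∪ x.2.map (outC c)))).card
          ≤ ∑ _c : Fin (M + 1), ∑ j ∈ Ico 2 r, (Fintype.card β).choose j * (F j).card := by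
            apply sum_le_sum
            intro c _
            refine card_biUnion_le.trans (sum_le_sum fun j _ => ?_)
            refine card_image_le.trans ?_
            rw [card_product, card_powersetCard, card_univ]
        _ = _ := by rw [sum_const, card_univ, Fintype.card_fin, smul_eq_mul]
    · rw [hT2]
      refine card_biUnion_le.trans ?_
      calc ∑ c : Fin (M + 1), ((powersetCard r (univ : Finset β)).image
              (fun P => P.map (inC c))).card
          ≤ ∑ _c : Fin (M + 1), (Fintype.card β).choose r := by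
            apply sum_le_sum
            intro c _
            refine card_image_le.trans ?_
            rw [card_powersetCard, card_univ]
        _ = _ := by rw [sum_const, card_univ, Fintype.card_fin, smul_eq_mul]

end

open Pool.Agent.H688R3.TuranGen

lemma transfer {α γ : Type*} (e : α ≃ γ) {F : Finset (Finset α)} {r m : ℕ}
    (h1 : ∀ E ∈ F, E.card = r) (h2 : ∀ S : Finset α, S.card = m → ∃ E ∈ F, E ⊆ S) :
    ∃ F' : Finset (Finset γ), (∀ E ∈ F', E.card = r) ∧
      (∀ S : Finset γ, S.card = m → ∃ E ∈ F', E ⊆ S) ∧ F'.card = F.card := by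
  classical
  refine ⟨F.image (fun E => E.map e.toEmbedding), ?_, ?_,
    card_image_of_injective _ (Finset.map_injective _)⟩
  · intro E hE
    rw [mem_image] at hE
    obtain ⟨E', hE', rfl⟩ := hE
    rw [card_map]; exact h1 E' hE'
  · intro S hS
    obtain ⟨E, hE, hES⟩ := h2 (S.map e.symm.toEmbedding) (by rw [card_map, hS])
    refine ⟨E.map e.toEmbedding, mem_image_of_mem _ hE, ?_⟩
    intro x hx
    rw [Finset.mem_map] at hx
    obtain ⟨y, hy, rfl⟩ := hx
    have := hES hy
    rw [Finset.mem_map] at this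
    obtain ⟨z, hz, hzy⟩ := this
    rw [← hzy]
    simpa using hz

theorem c_blow {M b r m : ℕ} (hrm : r ≤ m) (H : Finset (Finset (Fin (M + 1))))
    (hH : ∀ R ∈ H, R.card = r)
    (hcov : ∀ S : Finset (Fin (M + 1)), S.card = m → ∃ R ∈ H, R ⊆ S) :
    c r m ((M + 1) * b) ≤ (H.card : ℝ) * (b : ℝ) ^ r +
      ((M : ℝ) + 1) * ∑ j ∈ Ico 2 r, (b.choose j : ℝ) * c (r - j) (m - j) (M * b) +
      ((M : ℝ) + 1) * (b.choose r : ℝ) := by
  classical
  have hF : ∀ j : ℕ, ∃ F : Finset (Finset (Fin M × Fin b)), j < r → ((∀ E ∈ F, E.card = r - j) ∧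
      (∀ S : Finset (Fin M × Fin b), S.card = m - j → ∃ E ∈ F, E ⊆ S) ∧
      (F.card : ℝ) = c (r - j) (m - j) (M * b)) := by
    intro j
    rcases Nat.lt_or_ge j r with hj | hj
    · obtain ⟨F, hF, hFc⟩ := exists_cov (r := r - j) (m := m - j) (by omega) (M * b)
      obtain ⟨F', h1, h2, h3⟩ := transfer (finProdFinEquiv (m := M) (n := b)).symm hF.1 hF.2
      exact ⟨F', fun _ => ⟨h1, h2, by rw [h3, hFc]⟩⟩
    · exact ⟨∅, fun h => absurd h (by omega)⟩
  choose F hF using hF
  obtain ⟨T, h1, h2, h3⟩ := blow (β := Fin b) (r := r) (m := m) H hH hcov F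
    (fun j _ hj => (hF j hj).1) (fun j _ hj => (hF j hj).2.1)
  obtain ⟨T', h4, h5, h6⟩ := transfer (finProdFinEquiv (m := M + 1) (n := b)) h1 h2
  have h7 : c r m ((M + 1) * b) ≤ T'.card := c_le_card ⟨h4, h5⟩
  rw [h6] at h7
  refine h7.trans ?_
  rw [Fintype.card_fin] at h3
  have h8 : (T.card : ℝ) ≤ (H.card : ℝ) * (b : ℝ) ^ r +
      ((M : ℝ) + 1) * ∑ j ∈ Ico 2 r, (b.choose j : ℝ) * ((F j).card : ℝ) +
      ((M : ℝ) + 1) * (b.choose r : ℝ) := by exact_mod_cast h3
  refine h8.trans (le_of_eq ?_)
  congr 2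
  congr 1
  apply sum_congr rfl
  intro j hj
  rw [(hF j (mem_Ico.1 hj).2).2.2]

/-- the hypergeometric probability is at most the binomial coefficient times the power -/
lemma hyper {M b r j : ℕ} (hj : j ≤ r) (hb : 1 ≤ b) :
    (b.choose j : ℝ) * ((M * b).choose (r - j) : ℝ) ≤
      (r.choose j : ℝ) * (1 / ((M : ℝ) + 1)) ^ j * (((M + 1) * b).choose r : ℝ) := by
  rcases Nat.lt_or_ge b j with hbj | hbj
  · rw [Nat.choose_eq_zero_of_lt hbj]
    simp only [Nat.cast_zero, zero_mul]
    positivity
  rcases Nat.lt_or_ge ((M + 1) * b) r with hbr | hbr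
  · have h1 : (M * b) < r - j := by
      have : (M + 1) * b = M * b + b := by ring
      omega
    rw [Nat.choose_eq_zero_of_lt h1]
    simp only [Nat.cast_zero, mul_zero]
    positivity
  have hM : (0 : ℝ) < (M : ℝ) + 1 := by positivity
  have hb0 : (0 : ℝ) < (b : ℝ) := by exact_mod_cast hb
  have hid : (((M + 1) * b).choose r : ℝ) * (r.choose j : ℝ) =
      (((M + 1) * b).choose j : ℝ) * (((M + 1) * b - j).choose (r - j) : ℝ) := by
    exact_mod_cast Nat.choose_mul hj
  have h1 : (b.choose j : ℝ) ≤ ((b : ℝ) / (((M + 1) * b : ℕ) : ℝ)) ^ j *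
      (((M + 1) * b).choose j : ℝ) :=
    choose_scale (Nat.le_mul_of_pos_left b (by omega)) (Nat.mul_pos (by omega) hb)
  have h2 : (b : ℝ) / (((M + 1) * b : ℕ) : ℝ) = 1 / ((M : ℝ) + 1) := by
    push_cast
    field_simp
  rw [h2] at h1
  have h3 : ((M * b).choose (r - j) : ℝ) ≤ (((M + 1) * b - j).choose (r - j) : ℝ) := by
    have : (M + 1) * b = M * b + b := by ring
    exact_mod_cast Nat.choose_le_choose _ (by omega)
  calc (b.choose j : ℝ) * ((M * b).choose (r - j) : ℝ)
      ≤ ((1 / ((M : ℝ) + 1)) ^ j * (((M + 1) * b).choose j : ℝ)) *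
          (((M + 1) * b - j).choose (r - j) : ℝ) :=
        mul_le_mul h1 h3 (Nat.cast_nonneg _) (by positivity)
    _ = (1 / ((M : ℝ) + 1)) ^ j * ((((M + 1) * b).choose j : ℝ) *
          (((M + 1) * b - j).choose (r - j) : ℝ)) := by ring
    _ = _ := by rw [← hid]; ring

/-- The recursive inequality for the covering densities. -/
theorem t_blow {M r m : ℕ} (hrm : r ≤ m) (hrM : r ≤ M + 1)
    (H : Finset (Finset (Fin (M + 1)))) (hH : ∀ R ∈ H, R.card = r)
    (hcov : ∀ S : Finset (Fin (M + 1)), S.card = m → ∃ R ∈ H, R ⊆ S) :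
    t r m ≤ (H.card : ℝ) / ((M + 1).choose r : ℝ) +
      ∑ j ∈ Ico 2 r, ((M : ℝ) + 1) * ((r.choose j : ℝ) * (1 / ((M : ℝ) + 1)) ^ j *
        t (r - j) (m - j)) + ((M : ℝ) + 1) * (1 / ((M : ℝ) + 1)) ^ r := by
  have hM : (0 : ℝ) < (M : ℝ) + 1 := by positivity
  have hlim1 : Tendsto (fun b : ℕ => c r m ((M + 1) * b) / (((M + 1) * b).choose r : ℝ)) atTop
      (𝓝 (t r m)) := (tendsto_c r m).comp (tendsto_id.const_mul_atTop' (by omega))
  refine le_of_tendsto hlim1 ?_
  filter_upwards [eventually_ge_atTop (r + 1)] with b hb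
  have hbn : b ≤ (M + 1) * b := Nat.le_mul_of_pos_left b (by omega)
  have hK : (0 : ℝ) < (((M + 1) * b).choose r : ℝ) := choose_pos' (by omega)
  have hb0 : (0 : ℝ) < (b : ℝ) := by exact_mod_cast (show 0 < b by omega)
  have hMr : (0 : ℝ) < ((M + 1).choose r : ℝ) := choose_pos' hrM
  rw [div_le_iff₀ hK]
  refine (c_blow (b := b) hrm H hH hcov).trans ?_
  have e : ∀ A B C K : ℝ, (A + B + C) * K = A * K + B * K + C * K := fun A B C K => by ring
  rw [e]
  refine add_le_add (add_le_add ?_ ?_) ?_
  · have h1 : ((M + 1).choose r : ℝ) ≤ ((((M + 1 : ℕ)) : ℝ) / (((M + 1) * b : ℕ) : ℝ)) ^ r *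
        (((M + 1) * b).choose r : ℝ) :=
      choose_scale (Nat.le_mul_of_pos_right _ (by omega)) (Nat.mul_pos (by omega) (by omega))
    have h2 : (((M + 1 : ℕ)) : ℝ) / (((M + 1) * b : ℕ) : ℝ) = 1 / (b : ℝ) := by
      push_cast
      field_simp
    rw [h2, div_pow, one_pow, div_mul_eq_mul_div, one_mul, le_div_iff₀ (by positivity)] at h1
    rw [div_mul_eq_mul_div, le_div_iff₀ hMr]
    calc (H.card : ℝ) * (b : ℝ) ^ r * ((M + 1).choose r : ℝ)
        = (H.card : ℝ) * (((M + 1).choose r : ℝ) * (b : ℝ) ^ r) := by ring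
      _ ≤ (H.card : ℝ) * (((M + 1) * b).choose r : ℝ) :=
        mul_le_mul_of_nonneg_left h1 (Nat.cast_nonneg _)
  · rw [mul_sum, sum_mul]
    apply sum_le_sum
    intro j hj
    rw [mem_Ico] at hj
    have ht := c_le_t (r - j) (m - j) (M * b)
    have ht0 : 0 ≤ t (r - j) (m - j) := t_nonneg (by omega)
    calc ((M : ℝ) + 1) * ((b.choose j : ℝ) * c (r - j) (m - j) (M * b))
        ≤ ((M : ℝ) + 1) * ((b.choose j : ℝ) * (t (r - j) (m - j) *
            ((M * b).choose (r - j) : ℝ))) := by
          apply mul_le_mul_of_nonneg_left _ hM.le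
          exact mul_le_mul_of_nonneg_left ht (Nat.cast_nonneg _)
      _ = ((M : ℝ) + 1) * t (r - j) (m - j) * ((b.choose j : ℝ) *
            ((M * b).choose (r - j) : ℝ)) := by ring
      _ ≤ ((M : ℝ) + 1) * t (r - j) (m - j) * ((r.choose j : ℝ) * (1 / ((M : ℝ) + 1)) ^ j *
            (((M + 1) * b).choose r : ℝ)) :=
          mul_le_mul_of_nonneg_left (hyper hj.2.le (by omega)) (mul_nonneg hM.le ht0)
      _ = _ := by ring
  · have h1 := hyper (M := M) (b := b) (le_refl r) (by omega)
    rw [Nat.sub_self, Nat.choose_zero_right, Nat.choose_self, Nat.cast_one, mul_one, one_mul] at h1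
    rw [mul_assoc]
    exact mul_le_mul_of_nonneg_left h1 hM.le

end Pool.Agent.TH487.Unif
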