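import Pool.Agent.TH487.Unif.Greedy
import Pool.Agent.TH487.Unif.Blow

/-!
The bound `C(m,r) t(r,m) ≤ (3/2) (R (1 + log (2 m² / R)) + 2)`, `R = m - r`.
-/

set_option autoImplicit false

open Finset Filter Topology

namespace Pool.Agent.TH487.Unif

open Pool.Agent.H688R3.TuranGen

lemma t_le_one {r m : ℕ} : t r m ≤ 1 := by
  refine le_of_tendsto (tendsto_c r m) ?_
  filter_upwards [eventually_ge_atTop r] with n hn
  rw [div_le_one (choose_pos' hn)]
  unfold c
  have : (0 : ℝ) ≤ Pool.Agent.H120R2.Clique.ex n r m := Nat.cast_nonneg _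
  linarith

lemma log_choose_le {n k : ℕ} (hk : 1 ≤ k) (hkn : k ≤ n) :
    Real.log (n.choose k : ℝ) ≤ k * (1 + Real.log ((n : ℝ) / k)) := by
  have hk0 : (0 : ℝ) < k := by exact_mod_cast hk
  have hn0 : (0 : ℝ) < n := by exact_mod_cast (show 0 < n by omega)
  have hf0 : (0 : ℝ) < (k.factorial : ℝ) := by exact_mod_cast k.factorial_pos
  have h1 : (n.choose k : ℝ) ≤ (n : ℝ) ^ k / (k.factorial : ℝ) := Nat.choose_le_pow_div k n
  have h2 : (k : ℝ) ^ k / (k.factorial : ℝ) ≤ Real.exp k := Real.pow_div_factorial_le_exp _ hk0.le k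
  have h3 : (n.choose k : ℝ) ≤ ((n : ℝ) / k) ^ k * Real.exp k := by
    refine h1.trans ?_
    have e : (n : ℝ) ^ k / (k.factorial : ℝ) = ((n : ℝ) / k) ^ k * ((k : ℝ) ^ k / (k.factorial : ℝ)) := by
      rw [div_pow]; field_simp
    rw [e]
    exact mul_le_mul_of_nonneg_left h2 (by positivity)
  calc Real.log (n.choose k : ℝ) ≤ Real.log (((n : ℝ) / k) ^ k * Real.exp k) :=
        Real.log_le_log (choose_pos' hkn) h3
    _ = k * (1 + Real.log ((n : ℝ) / k)) := by
        rw [Real.log_mul (by positivity) (Real.exp_pos _).ne', Real.log_exp, Real.log_pow]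
        ring

lemma geom (k : ℕ) : ∑ j ∈ Ico 2 (k + 2), ((1 : ℝ) / 4) ^ (j - 1) ≤ 1 / 3 := by
  have h : ∑ j ∈ Ico 2 (k + 2), ((1 : ℝ) / 4) ^ (j - 1) = 1 / 3 - 1 / 3 * (1 / 4) ^ k := by
    induction k with
    | zero => simp
    | succ k ih =>
      rw [sum_Ico_succ_top (by omega), ih]
      have e : k + 2 - 1 = k + 1 := by omega
      rw [e, pow_succ]
      ring
  rw [h]
  have : (0 : ℝ) ≤ (1 / 4) ^ k := by positivity
  linarith

/-- the terms of the recursive inequality for `N = 2 m²` -/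
lemma term_le {m j : ℕ} (hm : 2 ≤ m) (hj : 2 ≤ j) :
    (2 * (m : ℝ) ^ 2) * (1 / (2 * (m : ℝ) ^ 2)) ^ j * (m.choose j : ℝ) ≤ (1 / 4) ^ (j - 1) := by
  have hm0 : (0 : ℝ) < m := by exact_mod_cast (show 0 < m by omega)
  have hm2 : (2 : ℝ) ≤ m := by exact_mod_cast hm
  obtain ⟨i, rfl⟩ : ∃ i, j = i + 2 := ⟨j - 2, by omega⟩
  have h1 : (m.choose (i + 2) : ℝ) ≤ (m : ℝ) ^ (i + 2) / 2 := by
    refine (Nat.choose_le_pow_div (i + 2) m).trans ?_
    apply div_le_div_of_nonneg_left (by positivity) (by norm_num)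
    have : 2 ≤ (i + 2).factorial := by
      calc 2 = Nat.factorial 2 := rfl
        _ ≤ (i + 2).factorial := Nat.factorial_le (by omega)
    exact_mod_cast this
  have e : i + 2 - 1 = i + 1 := by omega
  rw [e]
  calc (2 * (m : ℝ) ^ 2) * (1 / (2 * (m : ℝ) ^ 2)) ^ (i + 2) * (m.choose (i + 2) : ℝ)
      ≤ (2 * (m : ℝ) ^ 2) * (1 / (2 * (m : ℝ) ^ 2)) ^ (i + 2) * ((m : ℝ) ^ (i + 2) / 2) :=
        mul_le_mul_of_nonneg_left h1 (by positivity)
    _ = 1 / 4 * (1 / (2 * (m : ℝ))) ^ i := by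
        rw [div_pow, div_pow, one_pow, one_pow]
        have e1 : ((2 : ℝ) * (m : ℝ) ^ 2) ^ (i + 2) = (2 * (m : ℝ)) ^ i * (m : ℝ) ^ i *
          (4 * (m : ℝ) ^ 4) := by
          rw [pow_add, ← mul_pow]
          congr 1
          · congr 1; ring
          · ring
        rw [e1, pow_add]
        field_simp
    _ ≤ 1 / 4 * (1 / 4) ^ i := by
        apply mul_le_mul_of_nonneg_left _ (by norm_num)
        apply pow_le_pow_left₀ (by positivity)
        exact one_div_le_one_div_of_le (by norm_num) (by linarith)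
    _ = (1 / 4) ^ (i + 1) := by rw [pow_succ]; ring

/-- `R (1 + log (2 m² / R))` -/
noncomputable def L (R m : ℕ) : ℝ := R * (1 + Real.log (2 * (m : ℝ) ^ 2 / R))

lemma L_mono {R m n : ℕ} (hR : 1 ≤ R) (hm : 1 ≤ m) (hmn : m ≤ n) : L R m ≤ L R n := by
  have hR0 : (0 : ℝ) < R := by exact_mod_cast hR
  have hm0 : (0 : ℝ) < m := by exact_mod_cast hm
  have hmn' : (m : ℝ) ≤ n := by exact_mod_cast hmn
  unfold L
  apply mul_le_mul_of_nonneg_left _ hR0.le
  have : Real.log (2 * (m : ℝ) ^ 2 / R) ≤ Real.log (2 * (n : ℝ) ^ 2 / R) := by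
    apply Real.log_le_log (by positivity)
    apply div_le_div_of_nonneg_right _ hR0.le
    apply mul_le_mul_of_nonneg_left _ (by norm_num)
    exact pow_le_pow_left₀ hm0.le hmn' 2
  linarith

lemma L_ge {R m : ℕ} (hR : 1 ≤ R) (hm : R < m) : (R : ℝ) ≤ L R m := by
  have hR0 : (0 : ℝ) < R := by exact_mod_cast hR
  have hR1 : (1 : ℝ) ≤ R := by exact_mod_cast hR
  have hm0 : (R : ℝ) < m := by exact_mod_cast hm
  unfold L
  have : 0 ≤ Real.log (2 * (m : ℝ) ^ 2 / R) := by
    apply Real.log_nonneg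
    rw [le_div_iff₀ hR0]
    nlinarith
  nlinarith

/-- The first bound. -/
theorem boundB {R : ℕ} (hR : 1 ≤ R) : ∀ r : ℕ, 1 ≤ r →
    ((r + R).choose r : ℝ) * t r (r + R) ≤ 3 / 2 * (L R (r + R) + 2) := by
  intro r
  induction r using Nat.strong_induction_on with
  | _ r ih =>
  intro hr
  have hLge := L_ge hR (show R < r + R by omega)
  have hR1 : (1 : ℝ) ≤ R := by exact_mod_cast hR
  rcases Nat.lt_or_ge r 2 with hr2 | hr2
  · have : r = 1 := by omega
    subst this
    have h1 : t 1 (1 + R) ≤ 1 := t_le_one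
    have h2 : (((1 + R).choose 1 : ℕ) : ℝ) = 1 + R := by
      rw [Nat.choose_one_right]; push_cast; ring
    rw [h2]
    nlinarith
  · set m : ℕ := r + R with hm
    set N : ℕ := 2 * m ^ 2 with hN
    obtain ⟨M, hM⟩ : ∃ M, M + 1 = N := ⟨N - 1, by
      have : 0 < N := by rw [hN]; positivity
      omega⟩
    have hmN : m ≤ M + 1 := by
      rw [hM, hN]
      nlinarith
    have hmR : ((M : ℝ) + 1) = 2 * (m : ℝ) ^ 2 := by
      have : ((M + 1 : ℕ) : ℝ) = ((2 * m ^ 2 : ℕ) : ℝ) := by rw [hM]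
      push_cast at this
      exact this
    have hrm : r ≤ m := by omega
    obtain ⟨H, hH1, hH2, hH3⟩ := exists_cover (N := M + 1) hrm hmN
    have hb := t_blow (M := M) hrm (by omega) H hH1 hH2
    have hCm : (0 : ℝ) < (m.choose r : ℝ) := choose_pos' hrm
    have hCN : (0 : ℝ) < ((M + 1).choose r : ℝ) := choose_pos' (by omega)
    have hmr : m - r = R := by omega
    -- first part
    have hfirst : (m.choose r : ℝ) * ((H.card : ℝ) / ((M + 1).choose r : ℝ)) ≤ L R m + 2 := by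
      have h1 : (m.choose r : ℝ) * ((H.card : ℝ) / ((M + 1).choose r : ℝ)) ≤
          (Real.log ((M + 1 - r).choose (m - r) : ℝ) + 1) +
            (m.choose r : ℝ) / ((M + 1).choose r : ℝ) := by
        rw [← mul_div_assoc, div_le_iff₀ hCN]
        calc (m.choose r : ℝ) * (H.card : ℝ) ≤ (m.choose r : ℝ) *
              (((M + 1).choose r : ℝ) / (m.choose r : ℝ) *
                (Real.log ((M + 1 - r).choose (m - r) : ℝ) + 1) + 1) :=
              mul_le_mul_of_nonneg_left hH3 hCm.le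
          _ = _ := by field_simp
      have h2 : (m.choose r : ℝ) / ((M + 1).choose r : ℝ) ≤ 1 := by
        rw [div_le_one hCN]
        exact_mod_cast Nat.choose_le_choose r hmN
      have h3 : Real.log ((M + 1 - r).choose (m - r) : ℝ) ≤ L R m := by
        rw [hmr]
        have h4 : Real.log ((M + 1 - r).choose R : ℝ) ≤ Real.log ((M + 1).choose R : ℝ) := by
          apply Real.log_le_log (choose_pos' (by omega))
          exact_mod_cast Nat.choose_le_choose R (Nat.sub_le _ _)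
        refine h4.trans ?_
        have h5 := log_choose_le hR (show R ≤ M + 1 by omega)
        have h6 : (((M + 1 : ℕ)) : ℝ) = 2 * (m : ℝ) ^ 2 := by push_cast; exact hmR
        rw [h6] at h5
        exact h5
      linarith
    set U : ℝ := 3 / 2 * (L R m + 2) with hU
    have hU1 : 1 ≤ U := by rw [hU]; linarith
    -- the other terms
    have hterm : ∀ j ∈ Ico 2 r, (m.choose r : ℝ) * (((M : ℝ) + 1) * ((r.choose j : ℝ) *
        (1 / ((M : ℝ) + 1)) ^ j * t (r - j) (m - j))) ≤ (1 / 4) ^ (j - 1) * U := by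
      intro j hj
      rw [mem_Ico] at hj
      have hid : (m.choose r : ℝ) * (r.choose j : ℝ) =
          (m.choose j : ℝ) * ((m - j).choose (r - j) : ℝ) := by
        exact_mod_cast Nat.choose_mul hj.2.le
      have hih := ih (r - j) (by omega) (by omega)
      have e1 : r - j + R = m - j := by omega
      rw [e1] at hih
      have hih2 : ((m - j).choose (r - j) : ℝ) * t (r - j) (m - j) ≤ U := by
        refine hih.trans ?_
        rw [hU]
        have := L_mono hR (show 1 ≤ m - j by omega) (show m - j ≤ m by omega)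
        linarith
      have hterm2 := term_le (m := m) (j := j) (by omega) hj.1
      rw [← hmR] at hterm2
      calc (m.choose r : ℝ) * (((M : ℝ) + 1) * ((r.choose j : ℝ) *
            (1 / ((M : ℝ) + 1)) ^ j * t (r - j) (m - j)))
          = ((M : ℝ) + 1) * (1 / ((M : ℝ) + 1)) ^ j * ((m.choose r : ℝ) * (r.choose j : ℝ)) *
              t (r - j) (m - j) := by ring
        _ = (((M : ℝ) + 1) * (1 / ((M : ℝ) + 1)) ^ j * (m.choose j : ℝ)) *
              (((m - j).choose (r - j) : ℝ) * t (r - j) (m - j)) := by rw [hid]; ring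
        _ ≤ (1 / 4) ^ (j - 1) * U :=
            mul_le_mul hterm2 hih2 (mul_nonneg (Nat.cast_nonneg _) (t_nonneg (by omega)))
              (by positivity)
    have hlast : (m.choose r : ℝ) * (((M : ℝ) + 1) * (1 / ((M : ℝ) + 1)) ^ r) ≤
        (1 / 4) ^ (r - 1) * U := by
      have hterm2 := term_le (m := m) (j := r) (by omega) hr2
      rw [← hmR] at hterm2
      calc (m.choose r : ℝ) * (((M : ℝ) + 1) * (1 / ((M : ℝ) + 1)) ^ r)
          = (((M : ℝ) + 1) * (1 / ((M : ℝ) + 1)) ^ r * (m.choose r : ℝ)) := by ring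
        _ ≤ (1 / 4) ^ (r - 1) := hterm2
        _ = (1 / 4) ^ (r - 1) * 1 := by ring
        _ ≤ _ := mul_le_mul_of_nonneg_left hU1 (by positivity)
    have hgeom := geom (r - 1)
    have e2 : r - 1 + 2 = r + 1 := by omega
    rw [e2, sum_Ico_succ_top (by omega)] at hgeom
    calc (m.choose r : ℝ) * t r m ≤ (m.choose r : ℝ) * ((H.card : ℝ) / ((M + 1).choose r : ℝ) +
          ∑ j ∈ Ico 2 r, ((M : ℝ) + 1) * ((r.choose j : ℝ) * (1 / ((M : ℝ) + 1)) ^ j *
            t (r - j) (m - j)) + ((M : ℝ) + 1) * (1 / ((M : ℝ) + 1)) ^ r) :=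
          mul_le_mul_of_nonneg_left hb hCm.le
      _ = (m.choose r : ℝ) * ((H.card : ℝ) / ((M + 1).choose r : ℝ)) +
          ∑ j ∈ Ico 2 r, (m.choose r : ℝ) * (((M : ℝ) + 1) * ((r.choose j : ℝ) *
            (1 / ((M : ℝ) + 1)) ^ j * t (r - j) (m - j))) +
          (m.choose r : ℝ) * (((M : ℝ) + 1) * (1 / ((M : ℝ) + 1)) ^ r) := by
          rw [mul_add, mul_add, mul_sum]
      _ ≤ (L R m + 2) + ∑ j ∈ Ico 2 r, (1 / 4) ^ (j - 1) * U + (1 / 4) ^ (r - 1) * U :=
          add_le_add (add_le_add hfirst (sum_le_sum hterm)) hlast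
      _ = (L R m + 2) + (∑ j ∈ Ico 2 r, (1 / 4) ^ (j - 1) + (1 / 4) ^ (r - 1)) * U := by
          rw [← sum_mul]; ring
      _ ≤ (L R m + 2) + 1 / 3 * U :=
          add_le_add le_rfl (mul_le_mul_of_nonneg_right hgeom (by linarith))
      _ = U := by rw [hU]; ring

end Pool.Agent.TH487.Unif
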