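import Pool.Agent.H688R3.TuranGenBase

/-!
The splitting inequality: the lowest `l` points of an `(l + h)`-set are treated by a random family,
and if it fails, the highest `h` points by an optimal cover.
-/

set_option autoImplicit false

open Finset Filter Topology

namespace Pool.Agent.TH487.Unif

section order

variable {α : Type*} [LinearOrder α]

/-- the `k` lowest elements -/
def low (k : ℕ) (X : Finset α) : Finset α := X.filter (fun x => (X.filter (· < x)).card < k)

/-- the `k` highest elements -/
def high (k : ℕ) (X : Finset α) : Finset α := X.filter (fun x => (X.filter (x < ·)).card < k)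

lemma low_subset (k : ℕ) (X : Finset α) : low k X ⊆ X := filter_subset _ _

lemma high_subset (k : ℕ) (X : Finset α) : high k X ⊆ X := filter_subset _ _

lemma low_union {A B : Finset α} (h : ∀ a ∈ A, ∀ b ∈ B, a < b) : low A.card (A ∪ B) = A := by
  ext x
  unfold low
  rw [mem_filter, mem_union]
  constructor
  · rintro ⟨hx | hx, hc⟩
    · exact hx
    · exfalso
      have : A.card ≤ ((A ∪ B).filter (· < x)).card := by
        apply card_le_card
        intro a ha
        rw [mem_filter, mem_union]
        exact ⟨Or.inl ha, h a ha x hx⟩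
      omega
  · intro hx
    refine ⟨Or.inl hx, ?_⟩
    apply card_lt_card
    rw [Finset.ssubset_iff_of_subset]
    · refine ⟨x, hx, ?_⟩
      rw [mem_filter]
      rintro ⟨-, hxx⟩
      exact lt_irrefl _ hxx
    · intro a ha
      rw [mem_filter, mem_union] at ha
      rcases ha with ⟨ha | ha, hax⟩
      · exact ha
      · exact absurd (h x hx a ha) (not_lt.2 hax.le)

lemma high_union {A B : Finset α} (h : ∀ a ∈ A, ∀ b ∈ B, a < b) : high B.card (A ∪ B) = B := by
  ext x
  unfold high
  rw [mem_filter, mem_union]
  constructor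
  · rintro ⟨hx | hx, hc⟩
    · exfalso
      have : B.card ≤ ((A ∪ B).filter (x < ·)).card := by
        apply card_le_card
        intro b hb
        rw [mem_filter, mem_union]
        exact ⟨Or.inr hb, h x hx b hb⟩
      omega
    · exact hx
  · intro hx
    refine ⟨Or.inr hx, ?_⟩
    apply card_lt_card
    rw [Finset.ssubset_iff_of_subset]
    · refine ⟨x, hx, ?_⟩
      rw [mem_filter]
      rintro ⟨-, hxx⟩
      exact lt_irrefl _ hxx
    · intro b hb
      rw [mem_filter, mem_union] at hb
      rcases hb with ⟨hb | hb, hbx⟩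
      · exact absurd (h b hb x hx) (not_lt.2 hbx.le)
      · exact hb

/-- a set is split into its lowest `k` elements and the rest -/
lemma exists_split {k : ℕ} (X : Finset α) (hk : k ≤ X.card) :
    ∃ A B : Finset α, A ∪ B = X ∧ A.card = k ∧ B.card = X.card - k ∧ ∀ a ∈ A, ∀ b ∈ B, a < b := by
  induction k generalizing X with
  | zero => exact ⟨∅, X, by simp, by simp, by simp, by simp⟩
  | succ k ih =>
    have hne : X.Nonempty := card_pos.1 (by omega)
    set x := X.min' hne with hx
    have hxX : x ∈ X := X.min'_mem hne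
    obtain ⟨A, B, h1, h2, h3, h4⟩ := ih (X.erase x) (by rw [card_erase_of_mem hxX]; omega)
    have hxA : x ∉ A := fun hA => by
      have : x ∈ X.erase x := by rw [← h1]; exact mem_union_left _ hA
      simp at this
    refine ⟨insert x A, B, ?_, ?_, ?_, ?_⟩
    · rw [insert_union, h1, insert_erase hxX]
    · rw [card_insert_of_notMem hxA, h2]
    · rw [h3, card_erase_of_mem hxX]; omega
    · intro a ha b hb
      rw [mem_insert] at ha
      rcases ha with rfl | ha
      · have hbX : b ∈ X.erase x := by rw [← h1]; exact mem_union_right _ hb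
        rw [mem_erase] at hbX
        exact lt_of_le_of_ne (X.min'_le b hbX.2) (Ne.symm hbX.1)
      · exact h4 a ha b hb

lemma card_low {k : ℕ} (X : Finset α) (hk : k ≤ X.card) : (low k X).card = k := by
  obtain ⟨A, B, h1, h2, h3, h4⟩ := exists_split X hk
  rw [← h1, ← h2, low_union h4]

lemma card_high {k : ℕ} (X : Finset α) (hk : k ≤ X.card) : (high k X).card = k := by
  obtain ⟨A, B, h1, h2, h3, h4⟩ := exists_split (k := X.card - k) X (by omega)
  have : B.card = k := by omega
  rw [← h1, ← this, high_union h4]

end order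

section average

variable {U : Type*} [DecidableEq U]

/-- total weight of the subsets of `W` that avoid `Z` -/
lemma weight_avoid (W Z : Finset U) (hZ : Z ⊆ W) (p : ℝ) :
    ∑ G ∈ W.powerset, p ^ G.card * (1 - p) ^ (W.card - G.card) *
      (if Disjoint G Z then 1 else 0) = (1 - p) ^ Z.card := by
  have h1 : ∑ G ∈ W.powerset, p ^ G.card * (1 - p) ^ (W.card - G.card) *
      (if Disjoint G Z then 1 else 0) =
      ∑ G ∈ (W \ Z).powerset, p ^ G.card * (1 - p) ^ (W.card - G.card) := by
    simp_rw [mul_ite, mul_one, mul_zero]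
    rw [← sum_filter]
    apply sum_congr _ fun _ _ => rfl
    ext G
    simp only [mem_filter, mem_powerset]
    constructor
    · rintro ⟨h, hd⟩
      exact fun x hx => mem_sdiff.2 ⟨h hx, fun hz => (Finset.disjoint_left.1 hd) hx hz⟩
    · intro h
      refine ⟨h.trans sdiff_subset, ?_⟩
      rw [Finset.disjoint_left]
      exact fun x hx => (mem_sdiff.1 (h hx)).2
  rw [h1]
  have hc : W.card = (W \ Z).card + Z.card := by
    rw [card_sdiff_of_subset hZ]
    have := card_le_card hZ
    omega
  have h2 : ∀ G ∈ (W \ Z).powerset, p ^ G.card * (1 - p) ^ (W.card - G.card) =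
      (1 - p) ^ Z.card * (p ^ G.card * (1 - p) ^ ((W \ Z).card - G.card)) := by
    intro G hG
    have := card_le_card (mem_powerset.1 hG)
    have e : W.card - G.card = Z.card + ((W \ Z).card - G.card) := by omega
    rw [e, pow_add]
    ring
  rw [sum_congr rfl h2, ← mul_sum, Finset.sum_pow_mul_eq_add_pow]
  ring

omit [DecidableEq U] in
lemma weight_total (W : Finset U) (p : ℝ) :
    ∑ G ∈ W.powerset, p ^ G.card * (1 - p) ^ (W.card - G.card) = 1 := by
  rw [Finset.sum_pow_mul_eq_add_pow]
  ring

/-- total weight of the subsets of `W` that contain `z` -/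
lemma weight_mem (W : Finset U) (z : U) (hz : z ∈ W) (p : ℝ) :
    ∑ G ∈ W.powerset, p ^ G.card * (1 - p) ^ (W.card - G.card) *
      (if z ∈ G then 1 else 0) = p := by
  have h1 := weight_avoid W {z} (by simpa using hz) p
  have h2 := weight_total W p
  rw [card_singleton, pow_one] at h1
  have h3 : ∑ G ∈ W.powerset, p ^ G.card * (1 - p) ^ (W.card - G.card) *
      (if z ∈ G then 1 else 0) = ∑ G ∈ W.powerset, (p ^ G.card * (1 - p) ^ (W.card - G.card) -
      p ^ G.card * (1 - p) ^ (W.card - G.card) * (if Disjoint G {z} then 1 else 0)) := by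
    apply sum_congr rfl
    intro G _
    by_cases h : z ∈ G
    · have : ¬ Disjoint G {z} := by rw [Finset.disjoint_singleton_right]; simpa using h
      rw [if_pos h, if_neg this]; ring
    · have : Disjoint G {z} := by rw [Finset.disjoint_singleton_right]; exact h
      rw [if_neg h, if_pos this]; ring
  rw [h3, sum_sub_distrib, h1, h2]
  ring

end average

/-- averaging over the permutations -/
lemma perm_average {n k : ℕ} (D : Finset (Finset (Fin n))) (hD : ∀ E ∈ D, E.card = k)
    (Z : Finset (Fin n)) (hZ : Z.card = k) :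
    (n.choose k : ℝ) * ∑ σ : Equiv.Perm (Fin n), (if Z.map σ.toEmbedding ∈ D then (1 : ℝ) else 0) =
      (n.factorial : ℝ) * D.card := by
  classical
  have hinv : ∀ Z' ∈ powersetCard k (univ : Finset (Fin n)),
      ∑ σ : Equiv.Perm (Fin n), (if Z'.map σ.toEmbedding ∈ D then (1 : ℝ) else 0) =
      ∑ σ : Equiv.Perm (Fin n), (if Z.map σ.toEmbedding ∈ D then (1 : ℝ) else 0) := by
    intro Z' hZ'
    rw [mem_powersetCard] at hZ'
    have hc : Z.card = Z'.card := by rw [hZ, hZ'.2]
    set τ : Equiv.Perm (Fin n) := (Finset.equivOfCardEq hc).extendSubtype with hτ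
    have hτZ : Z.map τ.toEmbedding = Z' := by
      apply eq_of_subset_of_card_le
      · intro x hx
        rw [Finset.mem_map] at hx
        obtain ⟨y, hy, rfl⟩ := hx
        exact Equiv.extendSubtype_mem (Finset.equivOfCardEq hc) y hy
      · rw [card_map, hc]
    rw [← hτZ]
    refine Fintype.sum_equiv (Equiv.mulRight τ) _ _ fun σ => ?_
    have e : (Z.map τ.toEmbedding).map σ.toEmbedding = Z.map (σ * τ).toEmbedding := by
      rw [Finset.map_map]
      rfl
    rw [e]
    rfl
  have hsum : ∑ Z' ∈ powersetCard k (univ : Finset (Fin n)),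
      ∑ σ : Equiv.Perm (Fin n), (if Z'.map σ.toEmbedding ∈ D then (1 : ℝ) else 0) =
      (n.factorial : ℝ) * D.card := by
    rw [sum_comm]
    have : ∀ σ : Equiv.Perm (Fin n), ∑ Z' ∈ powersetCard k (univ : Finset (Fin n)),
        (if Z'.map σ.toEmbedding ∈ D then (1 : ℝ) else 0) = D.card := by
      intro σ
      rw [← sum_filter, sum_const, nsmul_eq_mul, mul_one]
      congr 1
      refine card_bij (fun Z' _ => Z'.map σ.toEmbedding) ?_ ?_ ?_
      · intro Z' h
        exact (mem_filter.1 h).2
      · intro a _ b _ h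
        exact Finset.map_injective _ h
      · intro E hE
        refine ⟨E.map σ.symm.toEmbedding, ?_, ?_⟩
        · have e : (E.map σ.symm.toEmbedding).map σ.toEmbedding = E := by
            rw [Finset.map_map]
            convert Finset.map_refl using 2
            ext x
            simp
          rw [mem_filter, mem_powersetCard, e]
          exact ⟨⟨subset_univ _, by rw [card_map]; exact hD E hE⟩, hE⟩
        · rw [Finset.map_map]
          convert Finset.map_refl using 2
          ext x
          simp
    rw [sum_congr rfl fun σ _ => this σ, sum_const, card_univ, Fintype.card_perm, Fintype.card_fin,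
      nsmul_eq_mul]
  rw [← hsum, sum_congr rfl hinv, sum_const, card_powersetCard, card_univ, Fintype.card_fin,
    nsmul_eq_mul]

open Pool.Agent.H688R3.TuranGen

/-- the family of blocks -/
noncomputable def blocks {n : ℕ} (l h r R : ℕ) (D : Finset (Finset (Fin n)))
    (G : Finset (Finset (Fin n))) (σ : Equiv.Perm (Fin n)) : Finset (Finset (Fin n)) :=
  open Classical in
  (powersetCard r (univ : Finset (Fin n))).filter (fun X => low (l - R) X ∈ G ∨
    (Disjoint G (powersetCard (l - R) (low l X)) ∧ (high (h - R) X).map σ.toEmbedding ∈ D))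

lemma blocks_cov {n l h R : ℕ} (hl : R ≤ l) (hh : R ≤ h) {D : Finset (Finset (Fin n))}
    (hD : Cov (h - R) h D) (G : Finset (Finset (Fin n)))
    (σ : Equiv.Perm (Fin n)) : Cov (l + h - R) (l + h) (blocks l h (l + h - R) R D G σ) := by
  classical
  refine ⟨fun e he => (mem_powersetCard.1 (mem_filter.1 he).1).2, fun S hS => ?_⟩
  obtain ⟨A, B, h1, h2, h3, h4⟩ := exists_split (k := l) S (by omega)
  have hAB : Disjoint A B := by
    rw [Finset.disjoint_left]
    intro x hx hx'
    exact lt_irrefl _ (h4 x hx x hx')
  have hBc : B.card = h := by omega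
  by_cases hY : Disjoint G (powersetCard (l - R) A)
  · -- the random family fails
    obtain ⟨E, hE, hEB⟩ := hD.2 (B.map σ.toEmbedding) (by rw [card_map, hBc])
    obtain ⟨Z, hZ, hZE⟩ := Finset.subset_map_iff.1 hEB
    have hZc : Z.card = h - R := by
      rw [← hD.1 E hE, hZE, card_map]
    have h4' : ∀ a ∈ A, ∀ b ∈ Z, a < b := fun a ha b hb => h4 a ha b (hZ hb)
    have hAZ : Disjoint A Z := hAB.mono_right hZ
    refine ⟨A ∪ Z, ?_, ?_⟩
    · unfold blocks
      rw [mem_filter, mem_powersetCard]
      refine ⟨⟨subset_univ _, by rw [card_union_of_disjoint hAZ]; omega⟩, Or.inr ⟨?_, ?_⟩⟩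
      · rw [← h2, low_union h4', h2]; exact hY
      · rw [← hZc, high_union h4', ← hZE]; exact hE
    · rw [← h1]; exact union_subset_union_right hZ
  · rw [Finset.not_disjoint_iff] at hY
    obtain ⟨Y, hYG, hYA⟩ := hY
    rw [mem_powersetCard] at hYA
    have h4' : ∀ a ∈ Y, ∀ b ∈ B, a < b := fun a ha b hb => h4 a (hYA.1 ha) b hb
    have hYB : Disjoint Y B := hAB.mono_left hYA.1
    refine ⟨Y ∪ B, ?_, ?_⟩
    · unfold blocks
      rw [mem_filter, mem_powersetCard]
      refine ⟨⟨subset_univ _, by rw [card_union_of_disjoint hYB]; omega⟩, Or.inl ?_⟩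
      rw [← hYA.2, low_union h4']; exact hYG
    · rw [← h1]; exact union_subset_union_left hYA.1

/-- the splitting inequality for finite `n` -/
theorem c_split {n l h R : ℕ} (hl : R ≤ l) (hh : R ≤ h) {p : ℝ}
    (hp0 : 0 ≤ p) (hp1 : p ≤ 1) :
    c (l + h - R) (l + h) n ≤
      (n.choose (l + h - R) : ℝ) * (p + (1 - p) ^ (l.choose R) * t (h - R) h) := by
  classical
  obtain ⟨D, hD, hDc⟩ := exists_cov (r := h - R) (m := h) (Nat.sub_le _ _) n
  rcases Nat.lt_or_ge n (l + h - R) with hn | hn
  · unfold c
    rw [Nat.choose_eq_zero_of_lt hn]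
    simp
  set r : ℕ := l + h - R with hr
  set W : Finset (Finset (Fin n)) := powersetCard (l - R) univ with hW
  have hfac : (0 : ℝ) < (n.factorial : ℝ) := by exact_mod_cast n.factorial_pos
  have hnk : (0 : ℝ) < (n.choose (h - R) : ℝ) := choose_pos' (by omega)
  -- the cover is at least `c` for every choice
  have hlow : ∀ G ∈ W.powerset, ∀ σ : Equiv.Perm (Fin n),
      c r (l + h) n ≤ ((blocks l h r R D G σ).card : ℝ) := by
    intro G _ σ
    apply c_le_card
    exact blocks_cov hl hh hD G σ
  -- upper bound of the size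
  have hup : ∀ G ∈ W.powerset, ∀ σ : Equiv.Perm (Fin n),
      ((blocks l h r R D G σ).card : ℝ) ≤ ∑ X ∈ powersetCard r (univ : Finset (Fin n)),
        ((if low (l - R) X ∈ G then (1 : ℝ) else 0) +
          (if Disjoint G (powersetCard (l - R) (low l X)) then 1 else 0) *
            (if (high (h - R) X).map σ.toEmbedding ∈ D then 1 else 0)) := by
    intro G _ σ
    unfold blocks
    rw [card_filter]
    push_cast
    apply sum_le_sum
    intro X _
    by_cases h1 : low (l - R) X ∈ G
    · rw [if_pos (Or.inl h1), if_pos h1]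
      have : (0 : ℝ) ≤ (if Disjoint G (powersetCard (l - R) (low l X)) then 1 else 0) *
            (if (high (h - R) X).map σ.toEmbedding ∈ D then 1 else 0) := by positivity
      linarith
    · by_cases h2 : Disjoint G (powersetCard (l - R) (low l X)) ∧
          (high (h - R) X).map σ.toEmbedding ∈ D
      · rw [if_pos (Or.inr h2), if_neg h1, if_pos h2.1, if_pos h2.2]
        norm_num
      · rw [if_neg (by tauto), if_neg h1]
        positivity
  set w : Finset (Finset (Fin n)) → ℝ := fun G => p ^ G.card * (1 - p) ^ (W.card - G.card) with hw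
  have hw0 : ∀ G, 0 ≤ w G := fun G => mul_nonneg (pow_nonneg hp0 _) (pow_nonneg (by linarith) _)
  have htot : ∑ G ∈ W.powerset, w G = 1 := weight_total W p
  -- averaging
  have havg : (n.factorial : ℝ) * c r (l + h) n ≤ ∑ G ∈ W.powerset, ∑ σ : Equiv.Perm (Fin n),
      w G * ∑ X ∈ powersetCard r (univ : Finset (Fin n)),
        ((if low (l - R) X ∈ G then (1 : ℝ) else 0) +
          (if Disjoint G (powersetCard (l - R) (low l X)) then 1 else 0) *
            (if (high (h - R) X).map σ.toEmbedding ∈ D then 1 else 0)) := by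
    have h1 : (n.factorial : ℝ) * c r (l + h) n =
        ∑ G ∈ W.powerset, ∑ _σ : Equiv.Perm (Fin n), w G * c r (l + h) n := by
      simp_rw [sum_const, card_univ, Fintype.card_perm, Fintype.card_fin, nsmul_eq_mul]
      rw [← mul_sum, ← sum_mul, htot, one_mul]
    rw [h1]
    apply sum_le_sum
    intro G hG
    apply sum_le_sum
    intro σ _
    exact mul_le_mul_of_nonneg_left ((hlow G hG σ).trans (hup G hG σ)) (hw0 G)
  have hX : ∀ X ∈ powersetCard r (univ : Finset (Fin n)),
      ∑ G ∈ W.powerset, ∑ σ : Equiv.Perm (Fin n), w G * ((if low (l - R) X ∈ G then (1 : ℝ) else 0) +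
          (if Disjoint G (powersetCard (l - R) (low l X)) then 1 else 0) *
            (if (high (h - R) X).map σ.toEmbedding ∈ D then 1 else 0)) ≤
      (n.factorial : ℝ) * (p + (1 - p) ^ (l.choose R) * t (h - R) h) := by
    intro X hX
    rw [mem_powersetCard] at hX
    have hlow1 : low (l - R) X ∈ W := mem_powersetCard.2 ⟨subset_univ _, card_low X (by omega)⟩
    have hlow2 : powersetCard (l - R) (low l X) ⊆ W := powersetCard_mono (subset_univ _)
    have hlow3 : (powersetCard (l - R) (low l X)).card = l.choose R := by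
      rw [card_powersetCard, card_low X (by omega), Nat.choose_symm hl]
    have hhigh : (high (h - R) X).card = h - R := card_high X (by omega)
    set B : ℝ := ∑ σ : Equiv.Perm (Fin n),
      (if (high (h - R) X).map σ.toEmbedding ∈ D then (1 : ℝ) else 0) with hB
    have hpa := perm_average D hD.1 (high (h - R) X) hhigh
    rw [← hB] at hpa
    have hBle : B ≤ (n.factorial : ℝ) * t (h - R) h := by
      have h1 : (D.card : ℝ) ≤ t (h - R) h * (n.choose (h - R) : ℝ) := by
        rw [hDc]; exact c_le_t _ _ _
      have h2 : (n.choose (h - R) : ℝ) * B ≤ (n.choose (h - R) : ℝ) *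
          ((n.factorial : ℝ) * t (h - R) h) := by
        rw [hpa]
        calc (n.factorial : ℝ) * D.card ≤ (n.factorial : ℝ) *
              (t (h - R) h * (n.choose (h - R) : ℝ)) := mul_le_mul_of_nonneg_left h1 hfac.le
          _ = _ := by ring
      exact le_of_mul_le_mul_left h2 hnk
    have hin : ∀ G : Finset (Finset (Fin n)), ∑ σ : Equiv.Perm (Fin n),
        w G * ((if low (l - R) X ∈ G then (1 : ℝ) else 0) +
          (if Disjoint G (powersetCard (l - R) (low l X)) then 1 else 0) *
            (if (high (h - R) X).map σ.toEmbedding ∈ D then 1 else 0)) =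
        (n.factorial : ℝ) * (w G * (if low (l - R) X ∈ G then (1 : ℝ) else 0)) +
          B * (w G * (if Disjoint G (powersetCard (l - R) (low l X)) then 1 else 0)) := by
      intro G
      rw [← mul_sum, sum_add_distrib, ← mul_sum, ← hB, sum_const, card_univ, Fintype.card_perm,
        Fintype.card_fin, nsmul_eq_mul]
      ring
    rw [sum_congr rfl fun G _ => hin G, sum_add_distrib, ← mul_sum, ← mul_sum,
      weight_mem W _ hlow1 p, weight_avoid W _ hlow2 p, hlow3]
    have hq0 : 0 ≤ (1 - p) ^ (l.choose R) := pow_nonneg (by linarith) _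
    have := mul_le_mul_of_nonneg_right hBle hq0
    calc (n.factorial : ℝ) * p + B * (1 - p) ^ (l.choose R)
        ≤ (n.factorial : ℝ) * p + (n.factorial : ℝ) * t (h - R) h * (1 - p) ^ (l.choose R) := by
          linarith
      _ = _ := by ring
  have hswap : ∑ G ∈ W.powerset, ∑ σ : Equiv.Perm (Fin n),
      w G * ∑ X ∈ powersetCard r (univ : Finset (Fin n)),
        ((if low (l - R) X ∈ G then (1 : ℝ) else 0) +
          (if Disjoint G (powersetCard (l - R) (low l X)) then 1 else 0) *
            (if (high (h - R) X).map σ.toEmbedding ∈ D then 1 else 0)) =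
      ∑ X ∈ powersetCard r (univ : Finset (Fin n)), ∑ G ∈ W.powerset, ∑ σ : Equiv.Perm (Fin n),
        w G * ((if low (l - R) X ∈ G then (1 : ℝ) else 0) +
          (if Disjoint G (powersetCard (l - R) (low l X)) then 1 else 0) *
            (if (high (h - R) X).map σ.toEmbedding ∈ D then 1 else 0)) := by
    symm
    rw [sum_comm]
    apply sum_congr rfl
    intro G _
    rw [sum_comm]
    apply sum_congr rfl
    intro σ _
    rw [mul_sum]
  rw [hswap] at havg
  have hfin := havg.trans (sum_le_sum hX)
  rw [sum_const, card_powersetCard, card_univ, Fintype.card_fin, nsmul_eq_mul] at hfin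
  have h5 : (n.factorial : ℝ) * c r (l + h) n ≤ (n.factorial : ℝ) *
      ((n.choose r : ℝ) * (p + (1 - p) ^ (l.choose R) * t (h - R) h)) := by
    calc _ ≤ _ := hfin
      _ = _ := by ring
  exact le_of_mul_le_mul_left h5 hfac

/-- The splitting inequality. -/
theorem t_split {l h R : ℕ} (hl : R ≤ l) (hh : R ≤ h) {p : ℝ} (hp0 : 0 ≤ p) (hp1 : p ≤ 1) :
    t (l + h - R) (l + h) ≤ p + (1 - p) ^ (l.choose R) * t (h - R) h := by
  refine le_of_tendsto (tendsto_c (l + h - R) (l + h)) ?_
  filter_upwards [eventually_ge_atTop (l + h - R)] with n hn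
  rw [div_le_iff₀ (choose_pos' hn), mul_comm]
  exact c_split hl hh hp0 hp1

end Pool.Agent.TH487.Unif
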