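import Pool.Agent.TH487.Unif.BoundB
import Pool.Agent.TH487.Unif.Split
import Pool.Agent.TH487.LogR.Final

/-!
The uniform bound `C(m,r) t(r,m) ≤ 22 R log (R + 1)`, `R = m - r`, for all `m > r ≥ 1`, and
`C(m,r) t(r,m) ≤ 100 R log (r + 1)`.
-/

set_option autoImplicit false

open Finset Filter Topology

namespace Pool.Agent.TH487.Unif

open Pool.Agent.H688R3.TuranGen

lemma log_two_le (R : ℕ) (hR : 1 ≤ R) : (0.6931 : ℝ) ≤ Real.log ((R : ℝ) + 1) := by
  have hR1 : (1 : ℝ) ≤ R := by exact_mod_cast hR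
  have h1 := Real.log_two_gt_d9
  have h2 : Real.log 2 ≤ Real.log ((R : ℝ) + 1) := Real.log_le_log (by norm_num) (by linarith)
  linarith

/-- comparison of two binomial coefficients -/
lemma choose_ratio {m l R : ℕ} {x : ℝ} (hl : R ≤ l) (hx : 0 ≤ x)
    (h : (m : ℝ) ^ R ≤ x * ((l : ℝ) + 1 - R) ^ R) :
    (m.choose R : ℝ) ≤ x * (l.choose R : ℝ) := by
  have hf0 : (0 : ℝ) < (R.factorial : ℝ) := by exact_mod_cast R.factorial_pos
  have h1 : (m.choose R : ℝ) ≤ (m : ℝ) ^ R / (R.factorial : ℝ) := Nat.choose_le_pow_div R m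
  have h2 : (((l + 1 - R : ℕ) : ℝ)) ^ R / (R.factorial : ℝ) ≤ (l.choose R : ℝ) :=
    Nat.pow_le_choose R l
  have e : (((l + 1 - R : ℕ) : ℝ)) = (l : ℝ) + 1 - R := by
    rw [Nat.cast_sub (by omega)]; push_cast; ring
  rw [e] at h2
  calc (m.choose R : ℝ) ≤ (m : ℝ) ^ R / (R.factorial : ℝ) := h1
    _ ≤ x * ((l : ℝ) + 1 - R) ^ R / (R.factorial : ℝ) := div_le_div_of_nonneg_right h hf0.le
    _ = x * (((l : ℝ) + 1 - R) ^ R / (R.factorial : ℝ)) := by ring
    _ ≤ _ := mul_le_mul_of_nonneg_left h2 hx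

/-- The uniform bound. -/
theorem uniform {R : ℕ} (hR : 1 ≤ R) : ∀ r : ℕ, 1 ≤ r →
    ((r + R).choose r : ℝ) * t r (r + R) ≤ 22 * R * Real.log ((R : ℝ) + 1) := by
  intro r
  induction r using Nat.strong_induction_on with
  | _ r ih =>
  intro hr
  have hR1 : (1 : ℝ) ≤ R := by exact_mod_cast hR
  have hR0 : (0 : ℝ) < R := by linarith
  have hlog := log_two_le R hR
  have hlogR : Real.log R ≤ Real.log ((R : ℝ) + 1) := Real.log_le_log hR0 (by linarith)
  set Λ : ℝ := Real.log ((R : ℝ) + 1) with hΛ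
  set m : ℕ := r + R with hm
  have hm1 : (1 : ℝ) ≤ m := by exact_mod_cast (show 1 ≤ m by omega)
  have hm0 : (0 : ℝ) < m := by linarith
  rcases Nat.lt_or_ge (8 * R ^ 2) m with hbig | hsmall
  · -- the splitting step
    have hbigR : 8 * (R : ℝ) ^ 2 < m := by exact_mod_cast hbig
    set h : ℕ := m / (2 * R) with hh
    have hh1 : (h : ℝ) ≤ (m : ℝ) / (2 * R) := by
      have := Nat.cast_div_le (α := ℝ) (m := m) (n := 2 * R)
      push_cast at this
      exact this
    have hh2 : (m : ℝ) / (2 * R) < (h : ℝ) + 1 := by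
      have := Nat.lt_div_mul_add (a := m) (b := 2 * R) (by omega)
      rw [div_lt_iff₀ (by positivity)]
      have h3 : m < (m / (2 * R)) * (2 * R) + 2 * R := this
      rw [← hh] at h3
      have h4 : (m : ℝ) < (h : ℝ) * (2 * R) + 2 * R := by exact_mod_cast h3
      linarith
    have h4R : 4 * R ≤ h := by
      rw [hh, Nat.le_div_iff_mul_le (by omega)]
      nlinarith
    have hh3 : h ≤ m / 2 := by
      rw [hh]
      exact Nat.div_le_div_left (by omega) (by norm_num)
    obtain ⟨l, hl⟩ : ∃ l, l + h = m := ⟨m - h, by omega⟩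
    have hRR : R ≤ R ^ 2 := by nlinarith
    have hlR : R ≤ l := by omega
    have hhR : R ≤ h := by omega
    have hlR' : (l : ℝ) = m - h := by
      have : ((l + h : ℕ) : ℝ) = m := by rw [hl]
      push_cast at this
      linarith
    have hmid : (R : ℝ) ≤ (m : ℝ) / (8 * R) := by
      rw [le_div_iff₀ (by positivity)]
      nlinarith
    have hm8 : (m : ℝ) / (2 * R) = 4 * ((m : ℝ) / (8 * R)) := by
      field_simp; ring
    -- the two comparisons
    have hr1 : (m.choose R : ℝ) ≤ 8 / 3 * (l.choose R : ℝ) := by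
      apply choose_ratio hlR (by norm_num)
      have h1 : (m : ℝ) * (1 + -(5 / (8 * (R : ℝ)))) ≤ (l : ℝ) + 1 - R := by
        have e : (m : ℝ) * (1 + -(5 / (8 * (R : ℝ)))) = m - 5 * ((m : ℝ) / (8 * R)) := by
          field_simp
          ring
        rw [e, hlR']
        linarith
      have h58 : (5 : ℝ) / (8 * R) ≤ 5 / 8 := by
        apply div_le_div_of_nonneg_left (by norm_num) (by norm_num) (by linarith)
      have h2 : 3 / 8 ≤ (1 + -(5 / (8 * (R : ℝ)))) ^ R := by
        have hb := one_add_mul_le_pow (show (-2 : ℝ) ≤ -(5 / (8 * (R : ℝ))) by linarith) R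
        have e : 1 + (R : ℝ) * -(5 / (8 * (R : ℝ))) = 3 / 8 := by
          field_simp
          norm_num
        rw [e] at hb
        exact hb
      have h3 : ((m : ℝ) * (1 + -(5 / (8 * (R : ℝ))))) ^ R ≤ ((l : ℝ) + 1 - R) ^ R :=
        pow_le_pow_left₀ (mul_nonneg hm0.le (by linarith)) h1 R
      rw [mul_pow] at h3
      have h4 : (m : ℝ) ^ R * (3 / 8) ≤ (m : ℝ) ^ R * (1 + -(5 / (8 * (R : ℝ)))) ^ R :=
        mul_le_mul_of_nonneg_left h2 (by positivity)
      linarith
    have hr2 : (m.choose R : ℝ) ≤ (8 * R / 3) ^ R * (h.choose R : ℝ) := by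
      apply choose_ratio hhR (by positivity)
      rw [← mul_pow]
      apply pow_le_pow_left₀ hm0.le
      have h1 : 3 * ((m : ℝ) / (8 * R)) ≤ (h : ℝ) + 1 - R := by linarith
      calc (m : ℝ) = 8 * R / 3 * (3 * ((m : ℝ) / (8 * R))) := by field_simp
        _ ≤ _ := mul_le_mul_of_nonneg_left h1 (by positivity)
    -- the parameters
    have hCl : (0 : ℝ) < (l.choose R : ℝ) := choose_pos' hlR
    have hCh : (0 : ℝ) < (h.choose R : ℝ) := choose_pos' hhR
    set cc : ℝ := R * Real.log (8 * R / 3) + Real.log 2 with hcc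
    have hlog83 : 0 ≤ Real.log (8 * R / 3) := Real.log_nonneg (by
      rw [le_div_iff₀ (by norm_num)]; linarith)
    have hlog2 : 0 < Real.log 2 := Real.log_pos (by norm_num)
    have hcc0 : 0 ≤ cc := by positivity
    set x : ℝ := cc / (l.choose R : ℝ) with hx
    have hx0 : 0 ≤ x := div_nonneg hcc0 hCl.le
    have hexp1 : Real.exp (-x) ≤ 1 := Real.exp_le_one_iff.2 (by linarith)
    have hs := t_split (l := l) (h := h) (R := R) hlR hhR (p := 1 - Real.exp (-x))
      (by linarith) (by have := Real.exp_pos (-x); linarith)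
    have e1 : (1 - (1 - Real.exp (-x))) ^ (l.choose R) = Real.exp (-cc) := by
      rw [sub_sub_cancel, ← Real.exp_nat_mul]
      congr 1
      rw [hx]
      field_simp
    have e2 : l + h - R = r := by omega
    rw [e1, e2, hl] at hs
    have hp : 1 - Real.exp (-x) ≤ x := by
      have := Real.add_one_le_exp (-x)
      linarith
    have hsym : (m.choose r : ℝ) = (m.choose R : ℝ) := by
      have : m.choose R = m.choose r := Nat.choose_symm_of_eq_add (by omega)
      exact_mod_cast this.symm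
    have hCm0 : (0 : ℝ) ≤ (m.choose R : ℝ) := Nat.cast_nonneg _
    -- induction hypothesis
    have hih := ih (h - R) (by omega) (by omega)
    have e3 : h - R + R = h := by omega
    rw [e3] at hih
    have hsym2 : (h.choose (h - R) : ℝ) = (h.choose R : ℝ) := by
      have : h.choose (h - R) = h.choose R := Nat.choose_symm hhR
      exact_mod_cast this
    rw [hsym2] at hih
    have ht0 : 0 ≤ t (h - R) h := t_nonneg (Nat.sub_le _ _)
    have hexpcc : Real.exp (-cc) * (8 * R / 3) ^ R = 1 / 2 := by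
      have h83 : (0 : ℝ) < 8 * R / 3 := by positivity
      have : (8 * (R : ℝ) / 3) ^ R = Real.exp (R * Real.log (8 * R / 3)) := by
        rw [Real.exp_nat_mul, Real.exp_log h83]
      rw [this, ← Real.exp_add]
      have e4 : -cc + R * Real.log (8 * R / 3) = -Real.log 2 := by rw [hcc]; ring
      rw [e4, Real.exp_neg, Real.exp_log (by norm_num)]
      norm_num
    have hfirst : (m.choose R : ℝ) * x ≤ 8 / 3 * cc := by
      rw [hx, ← mul_div_assoc, div_le_iff₀ hCl]
      calc (m.choose R : ℝ) * cc ≤ (8 / 3 * (l.choose R : ℝ)) * cc :=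
            mul_le_mul_of_nonneg_right hr1 hcc0
        _ = _ := by ring
    have hsecond : (m.choose R : ℝ) * (Real.exp (-cc) * t (h - R) h) ≤
        1 / 2 * (22 * R * Λ) := by
      calc (m.choose R : ℝ) * (Real.exp (-cc) * t (h - R) h)
          ≤ ((8 * R / 3) ^ R * (h.choose R : ℝ)) * (Real.exp (-cc) * t (h - R) h) :=
            mul_le_mul_of_nonneg_right hr2 (mul_nonneg (Real.exp_pos _).le ht0)
        _ = (Real.exp (-cc) * (8 * R / 3) ^ R) * ((h.choose R : ℝ) * t (h - R) h) := by ring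
        _ = 1 / 2 * ((h.choose R : ℝ) * t (h - R) h) := by rw [hexpcc]
        _ ≤ _ := mul_le_mul_of_nonneg_left hih (by norm_num)
    have hcc1 : 8 / 3 * cc ≤ 11 * R * Λ := by
      have h1 : Real.log (8 * R / 3) ≤ 1 + Λ := by
        have e5 : (8 : ℝ) * R / 3 = 8 / 3 * R := by ring
        rw [e5, Real.log_mul (by norm_num) hR0.ne']
        have h2 : Real.log (8 / 3) ≤ 1 := by
          rw [Real.log_le_iff_le_exp (by norm_num)]
          have := Real.exp_one_gt_d9
          linarith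
        linarith
      have h2 := Real.log_two_lt_d9
      have h3 : cc ≤ R * (1 + Λ) + 0.6932 * R := by
        have h5 := mul_le_mul_of_nonneg_left h1 hR0.le
        have h6 : (0.6932 : ℝ) ≤ 0.6932 * R := by linarith
        rw [hcc]
        linarith
      have h4 : R * (0.6931 : ℝ) ≤ R * Λ := mul_le_mul_of_nonneg_left hlog hR0.le
      have e6 : (R : ℝ) * (1 + Λ) = R + R * Λ := by ring
      rw [e6] at h3
      have e7 : 11 * (R : ℝ) * Λ = 11 * (R * Λ) := by ring
      rw [e7]
      linarith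
    rw [hsym]
    calc (m.choose R : ℝ) * t r m ≤ (m.choose R : ℝ) *
          ((1 - Real.exp (-x)) + Real.exp (-cc) * t (h - R) h) :=
          mul_le_mul_of_nonneg_left hs hCm0
      _ ≤ (m.choose R : ℝ) * (x + Real.exp (-cc) * t (h - R) h) := by
          apply mul_le_mul_of_nonneg_left _ hCm0
          linarith
      _ = (m.choose R : ℝ) * x + (m.choose R : ℝ) * (Real.exp (-cc) * t (h - R) h) := by ring
      _ ≤ 11 * R * Λ + 1 / 2 * (22 * R * Λ) := add_le_add (hfirst.trans hcc1) hsecond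
      _ = _ := by ring
  · -- the first bound
    have hsmallR : (m : ℝ) ≤ 8 * (R : ℝ) ^ 2 := by exact_mod_cast hsmall
    have hB := boundB hR r hr
    rw [← hm] at hB
    refine hB.trans ?_
    have h1 : Real.log (2 * (m : ℝ) ^ 2 / R) ≤ 4.8521 + 3 * Λ := by
      have h2 : 2 * (m : ℝ) ^ 2 / R ≤ 2 ^ 7 * (R : ℝ) ^ 3 := by
        rw [div_le_iff₀ hR0]
        calc 2 * (m : ℝ) ^ 2 ≤ 2 * (8 * (R : ℝ) ^ 2) ^ 2 := by
              apply mul_le_mul_of_nonneg_left _ (by norm_num)
              exact pow_le_pow_left₀ hm0.le hsmallR 2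
          _ = _ := by ring
      have h3 : Real.log (2 * (m : ℝ) ^ 2 / R) ≤ Real.log (2 ^ 7 * (R : ℝ) ^ 3) :=
        Real.log_le_log (by positivity) h2
      rw [Real.log_mul (by positivity) (by positivity), Real.log_pow, Real.log_pow] at h3
      have h4 := Real.log_two_lt_d9
      push_cast at h3
      linarith
    unfold L
    have h5 : R * (1 + Real.log (2 * (m : ℝ) ^ 2 / R)) ≤ R * (5.8521 + 3 * Λ) :=
      mul_le_mul_of_nonneg_left (by linarith) hR0.le
    have h6 : R * (0.6931 : ℝ) ≤ R * Λ := mul_le_mul_of_nonneg_left hlog hR0.le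
    have e8 : R * (5.8521 + 3 * Λ) = 5.8521 * R + 3 * (R * Λ) := by ring
    rw [e8] at h5
    have e9 : 22 * (R : ℝ) * Λ = 22 * (R * Λ) := by ring
    rw [e9]
    linarith

/-- the case `r = 2` -/
lemma t_two (a : ℕ) (ha : 1 ≤ a) : t 2 (a + 1) ≤ 1 / a := by
  induction a, ha using Nat.le_induction with
  | base => rw [t_self]; norm_num
  | succ a ha ih =>
    have ha0 : (0 : ℝ) < a := by exact_mod_cast ha
    have h := t_add_le (r := 2) (a := a + 1) (b := 2) (by omega) le_rfl (by norm_num)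
      (x := (a : ℝ) / (a + 1)) (by positivity) (by rw [div_le_one (by positivity)]; linarith)
    have e : a + 1 + 2 - 1 = a + 1 + 1 := by omega
    rw [e, t_self] at h
    refine h.trans ?_
    calc t 2 (a + 1) * ((a : ℝ) / (a + 1)) ^ 2 + 1 * (1 - (a : ℝ) / (a + 1)) ^ 2
        ≤ 1 / a * ((a : ℝ) / (a + 1)) ^ 2 + 1 * (1 - (a : ℝ) / (a + 1)) ^ 2 := by
          have := mul_le_mul_of_nonneg_right ih (show 0 ≤ ((a : ℝ) / (a + 1)) ^ 2 by positivity)
          linarith
      _ = 1 / ((a + 1 : ℕ) : ℝ) := by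
          push_cast
          field_simp
          ring

/-- the bound in terms of `r` -/
theorem uniform_r {R r : ℕ} (hR : 1 ≤ R) (hr : 1 ≤ r) :
    ((r + R).choose r : ℝ) * t r (r + R) ≤ 100 * R * Real.log ((r : ℝ) + 1) := by
  have hR1 : (1 : ℝ) ≤ R := by exact_mod_cast hR
  have hr1 : (1 : ℝ) ≤ r := by exact_mod_cast hr
  have hR0 : (0 : ℝ) < R := by linarith
  have hlogr := log_two_le r hr
  rcases Nat.lt_or_ge r 2 with h1 | h1
  · have : r = 1 := by omega
    subst this
    have h2 : t 1 (1 + R) ≤ 1 := t_le_one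
    have h3 : (((1 + R).choose 1 : ℕ) : ℝ) = 1 + R := by
      rw [Nat.choose_one_right]; push_cast; ring
    rw [h3]
    have h4 : (1 + (R : ℝ)) * t 1 (1 + R) ≤ (1 + (R : ℝ)) * 1 :=
      mul_le_mul_of_nonneg_left h2 (by linarith)
    have h5 := mul_le_mul_of_nonneg_left hlogr (show (0 : ℝ) ≤ 100 * R by linarith)
    refine le_trans ?_ h5
    linarith
  rcases Nat.lt_or_ge r 3 with h2 | h2
  · have : r = 2 := by omega
    subst this
    have h3 := t_two (R + 1) (by omega)
    have e : R + 1 + 1 = 2 + R := by omega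
    rw [e] at h3
    have h4 : (((2 + R).choose 2 : ℕ) : ℝ) = (R + 2) * (R + 1) / 2 := by
      rw [Nat.cast_choose_two]; push_cast; ring
    rw [h4]
    calc ((R : ℝ) + 2) * (R + 1) / 2 * t 2 (2 + R) ≤ ((R : ℝ) + 2) * (R + 1) / 2 * (1 / ((R + 1 : ℕ) : ℝ)) :=
          mul_le_mul_of_nonneg_left h3 (by positivity)
      _ = ((R : ℝ) + 2) / 2 := by push_cast; field_simp
      _ ≤ _ := by
          have h5 := mul_le_mul_of_nonneg_left hlogr (show (0 : ℝ) ≤ 100 * R by linarith)
          linarith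
  rcases Nat.lt_or_ge (r ^ 3) (r + R) with h3 | h3
  · -- large cliques
    have hs := Pool.Agent.TH487.LogR.sharp (r := r) (a := r + R - 1) h2 (by omega)
    have e1 : r + R - 1 + 1 = r + R := by omega
    rw [e1] at hs
    set m : ℕ := r + R with hm
    have hf0 : (0 : ℝ) < (r.factorial : ℝ) := by exact_mod_cast r.factorial_pos
    have ht0 : 0 ≤ t r m := t_nonneg (by omega)
    -- `C(m,r) r! ≤ m (m-1)^(r-1)`
    have hdesc : (m.choose r : ℝ) * (r.factorial : ℝ) ≤ m * ((m - 1 : ℕ) : ℝ) ^ (r - 1) := by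
      have h4 : m.choose r * r.factorial = m.descFactorial r := by
        rw [Nat.descFactorial_eq_factorial_mul_choose]; ring
      obtain ⟨s, rfl⟩ : ∃ s, r = s + 1 := ⟨r - 1, by omega⟩
      obtain ⟨k, hk⟩ : ∃ k, m = k + 1 := ⟨m - 1, by omega⟩
      have h5 : m.descFactorial (s + 1) ≤ m * (m - 1) ^ (s + 1 - 1) := by
        rw [hk, Nat.succ_descFactorial_succ]
        have e2 : s + 1 - 1 = s := by omega
        have e3 : k + 1 - 1 = k := by omega
        rw [e2, e3]
        exact Nat.mul_le_mul_left _ (Nat.descFactorial_le_pow k s)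
      rw [← h4] at h5
      exact_mod_cast h5
    set Q : ℝ := Real.log r + Real.log (Real.log r) + 110 with hQ
    have hm0 : (0 : ℝ) ≤ m := Nat.cast_nonneg _
    have h6 : (m.choose r : ℝ) * t r m ≤ m * Q := by
      have h7 : (r.factorial : ℝ) * ((m.choose r : ℝ) * t r m) ≤ (r.factorial : ℝ) * (m * Q) := by
        calc (r.factorial : ℝ) * ((m.choose r : ℝ) * t r m)
            = ((m.choose r : ℝ) * (r.factorial : ℝ)) * t r m := by ring
          _ ≤ (m * ((m - 1 : ℕ) : ℝ) ^ (r - 1)) * t r m := mul_le_mul_of_nonneg_right hdesc ht0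
          _ = m * (((m - 1 : ℕ) : ℝ) ^ (r - 1) * t r m) := by ring
          _ ≤ m * (r.factorial * Q) := mul_le_mul_of_nonneg_left hs hm0
          _ = _ := by ring
      exact le_of_mul_le_mul_left h7 hf0
    have hr3 : (3 : ℝ) ≤ r := by exact_mod_cast h2
    have hmR : (m : ℝ) ≤ 9 / 8 * R := by
      have h8 : 9 * r ≤ m := by
        have : 9 * r ≤ r ^ 3 := by
          have : 3 ^ 2 ≤ r ^ 2 := Nat.pow_le_pow_left h2 2
          nlinarith
        omega
      have h9 : (9 : ℝ) * r ≤ m := by exact_mod_cast h8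
      have h10 : (m : ℝ) = r + R := by rw [hm]; push_cast; ring
      linarith
    have hlog1 : Real.log r ≤ Real.log ((r : ℝ) + 1) := Real.log_le_log (by linarith) (by linarith)
    have hlog3 : (1 : ℝ) ≤ Real.log r :=
      Pool.Agent.TH487.LogR.log_three.trans (Real.log_le_log (by norm_num) hr3)
    have hlog4 : (1.386 : ℝ) ≤ Real.log ((r : ℝ) + 1) := by
      have h11 : Real.log ((2 : ℝ) ^ 2) ≤ Real.log ((r : ℝ) + 1) :=
        Real.log_le_log (by norm_num) (by linarith)
      rw [Real.log_pow] at h11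
      have h12 := Real.log_two_gt_d9
      push_cast at h11
      linarith
    have hQ1 : Q ≤ 81 * Real.log ((r : ℝ) + 1) := by
      have h13 : Real.log (Real.log r) ≤ Real.log r - 1 :=
        Real.log_le_sub_one_of_pos (by linarith)
      rw [hQ]
      linarith
    have hΛ0 : 0 ≤ Real.log ((r : ℝ) + 1) := by linarith
    calc (m.choose r : ℝ) * t r m ≤ m * Q := h6
      _ ≤ m * (81 * Real.log ((r : ℝ) + 1)) := mul_le_mul_of_nonneg_left hQ1 hm0
      _ ≤ (9 / 8 * R) * (81 * Real.log ((r : ℝ) + 1)) :=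
          mul_le_mul_of_nonneg_right hmR (by positivity)
      _ ≤ _ := by
          have : 0 ≤ (R : ℝ) * Real.log ((r : ℝ) + 1) := mul_nonneg hR0.le hΛ0
          nlinarith
  · -- middle range
    refine (uniform hR r hr).trans ?_
    have h4 : Real.log ((R : ℝ) + 1) ≤ 3 * Real.log ((r : ℝ) + 1) := by
      have h5 : ((R : ℝ) + 1) ≤ ((r : ℝ) + 1) ^ 3 := by
        have h6 : ((r + R : ℕ) : ℝ) ≤ ((r ^ 3 : ℕ) : ℝ) := by exact_mod_cast h3
        push_cast at h6
        have h7 : (r : ℝ) ^ 3 ≤ ((r : ℝ) + 1) ^ 3 := pow_le_pow_left₀ (by linarith) (by linarith) 3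
        linarith
      have h8 : Real.log ((R : ℝ) + 1) ≤ Real.log (((r : ℝ) + 1) ^ 3) :=
        Real.log_le_log (by linarith) h5
      rw [Real.log_pow] at h8
      push_cast at h8
      exact h8
    have h9 : 0 ≤ (R : ℝ) * Real.log ((r : ℝ) + 1) := by
      apply mul_nonneg hR0.le; linarith
    have h10 := mul_le_mul_of_nonneg_left h4 hR0.le
    nlinarith

end Pool.Agent.TH487.Unif
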