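import Pool.Agent.TH487.LogR.Cover

/-!
The greedy covering bound in the form `C(N,r)/C(m,r) · (1 + log C(N-r, m-r)) + 1`.
-/

set_option autoImplicit false

open Finset

namespace Pool.Agent.TH487.Unif

open Pool.Agent.TH487.LogR

variable {N : ℕ}

/-- The greedy covering bound. -/
theorem exists_cover {r m : ℕ} (hrm : r ≤ m) (hmN : m ≤ N) :
    ∃ H : Finset (Finset (Fin N)), (∀ R ∈ H, R.card = r) ∧
      (∀ S : Finset (Fin N), S.card = m → ∃ R ∈ H, R ⊆ S) ∧
      (H.card : ℝ) ≤ (N.choose r : ℝ) / (m.choose r : ℝ) *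
        (Real.log ((N - r).choose (m - r) : ℝ) + 1) + 1 := by
  classical
  have hN : 0 < N.choose r := Nat.choose_pos (hrm.trans hmN)
  have hNr : (0 : ℝ) < (N.choose r : ℝ) := by exact_mod_cast hN
  have hs : (0 : ℝ) < (m.choose r : ℝ) := by exact_mod_cast Nat.choose_pos hrm
  have hQ : 0 < (N - r).choose (m - r) := Nat.choose_pos (by omega)
  have hQR : (0 : ℝ) < ((N - r).choose (m - r) : ℝ) := by exact_mod_cast hQ
  have hQ1 : (1 : ℝ) ≤ ((N - r).choose (m - r) : ℝ) := by exact_mod_cast hQ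
  set p : ℝ := (m.choose r : ℝ) / (N.choose r : ℝ) with hp
  have hp0 : 0 < p := div_pos hs hNr
  have hp1 : 0 ≤ 1 - p := by
    rw [sub_nonneg, hp, div_le_one hNr]
    exact_mod_cast Nat.choose_le_choose r hmN
  set x : ℝ := (N.choose r : ℝ) / (m.choose r : ℝ) * Real.log ((N - r).choose (m - r) : ℝ) with hx
  have hx0 : 0 ≤ x := mul_nonneg (div_nonneg hNr.le hs.le) (Real.log_nonneg hQ1)
  obtain ⟨H, h1, h2, h3⟩ := iter (N := N) hrm hmN (⌊x⌋₊ + 1)
  have hmiss : ((missed H m).card : ℝ) ≤ (N.choose r : ℝ) / (m.choose r : ℝ) := by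
    refine h3.trans ?_
    have h4 : (1 - p) ^ (⌊x⌋₊ + 1) ≤ Real.exp (-(p * (⌊x⌋₊ + 1 : ℕ))) := by
      have h5 : 1 - p ≤ Real.exp (-p) := by
        have := Real.add_one_le_exp (-p)
        linarith
      refine (pow_le_pow_left₀ hp1 h5 _).trans ?_
      rw [← Real.exp_nat_mul]
      apply le_of_eq
      congr 1
      ring
    have h6 : x < ((⌊x⌋₊ + 1 : ℕ) : ℝ) := by
      push_cast
      exact Nat.lt_floor_add_one x
    have h7 : Real.log ((N - r).choose (m - r) : ℝ) ≤ p * ((⌊x⌋₊ + 1 : ℕ) : ℝ) := by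
      have : p * x = Real.log ((N - r).choose (m - r) : ℝ) := by
        rw [hp, hx]; field_simp
      rw [← this]
      exact (mul_lt_mul_of_pos_left h6 hp0).le
    have hid : (N.choose m : ℝ) * (m.choose r : ℝ) =
        (N.choose r : ℝ) * ((N - r).choose (m - r) : ℝ) := by
      exact_mod_cast Nat.choose_mul hrm
    calc (N.choose m : ℝ) * (1 - p) ^ (⌊x⌋₊ + 1)
        ≤ (N.choose m : ℝ) * Real.exp (-(p * (⌊x⌋₊ + 1 : ℕ))) :=
          mul_le_mul_of_nonneg_left h4 (Nat.cast_nonneg _)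
      _ ≤ (N.choose m : ℝ) * Real.exp (-Real.log ((N - r).choose (m - r) : ℝ)) :=
          mul_le_mul_of_nonneg_left (Real.exp_le_exp.2 (neg_le_neg h7)) (Nat.cast_nonneg _)
      _ = (N.choose m : ℝ) / ((N - r).choose (m - r) : ℝ) := by
          rw [Real.exp_neg, Real.exp_log hQR, div_eq_mul_inv]
      _ = (N.choose r : ℝ) / (m.choose r : ℝ) := by
          rw [div_eq_div_iff hQR.ne' hs.ne', hid]
  -- one `r`-set inside every missed `m`-set
  have hch : ∀ S : Finset (Fin N), ∃ R : Finset (Fin N), S ∈ missed H m → (R ⊆ S ∧ R.card = r) := by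
    intro S
    by_cases hS : S ∈ missed H m
    · have hSc : S.card = m := (mem_powersetCard.1 (mem_filter.1 hS).1).2
      obtain ⟨R, hR, hRc⟩ := exists_subset_card_eq (n := r) (s := S) (by omega)
      exact ⟨R, fun _ => ⟨hR, hRc⟩⟩
    · exact ⟨∅, fun h => absurd h hS⟩
  choose f hf using hch
  refine ⟨H ∪ (missed H m).image f, ?_, ?_, ?_⟩
  · intro R hR
    rw [mem_union, mem_image] at hR
    rcases hR with hR | ⟨S, hS, rfl⟩
    · exact h1 R hR
    · exact (hf S hS).2
  · intro S hS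
    by_cases hmem : S ∈ missed H m
    · exact ⟨f S, mem_union_right _ (mem_image_of_mem _ hmem), (hf S hmem).1⟩
    · have h8 : ¬ (∀ R ∈ H, ¬ R ⊆ S) := by
        intro hcon
        apply hmem
        unfold missed
        rw [mem_filter, mem_powersetCard]
        exact ⟨⟨subset_univ _, hS⟩, hcon⟩
      push Not at h8
      obtain ⟨R, hR, hRS⟩ := h8
      exact ⟨R, mem_union_left _ hR, hRS⟩
  · have h9 : ((H ∪ (missed H m).image f).card : ℝ) ≤ (H.card : ℝ) + ((missed H m).card : ℝ) := by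
      exact_mod_cast (card_union_le _ _).trans (Nat.add_le_add_left card_image_le _)
    have h10 : (H.card : ℝ) ≤ x + 1 := by
      have h4 : (H.card : ℝ) ≤ ((⌊x⌋₊ + 1 : ℕ) : ℝ) := by exact_mod_cast h2
      refine h4.trans ?_
      push_cast
      have := Nat.floor_le hx0
      linarith
    calc ((H ∪ (missed H m).image f).card : ℝ) ≤ (x + 1) +
          (N.choose r : ℝ) / (m.choose r : ℝ) := by linarith
      _ = _ := by rw [hx]; ring

end Pool.Agent.TH487.Unif
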